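import Pool.Agent.W810.KP.Defs

/-! PAIR0: two edges in a block (project KP). -/

namespace Pool.Agent.W34.KPPair0

open H974 H12S H973N Finset Pool.Agent.W810.KP

theorem con_mono (β : Edg) {F G : Finset Edg} (h : F ⊆ G) (hc : W810.KP.Con β F) : W810.KP.Con β G := by
  unfold W810.KP.Con at hc ⊢
  refine Reach.mono ?_ hc
  intro x hx
  rw [Finset.mem_coe, Finset.mem_erase] at hx ⊢
  exact ⟨hx.1, h hx.2⟩

theorem pf_bf (β g : Edg) (b F F' : Finset Edg) (hg : g ∈ b) (h1 : F' ⊆ F ∪ b)
    (h2 : F \ b ⊆ F') (hP : Pf (W810.KP.Con β) g F') : Bf (W810.KP.Con β) b F := by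
  refine ⟨con_mono β ?_ hP.1, fun hc => hP.2 (con_mono β ?_ hc)⟩
  · intro x hx
    rcases Finset.mem_insert.1 hx with rfl | hx
    · exact Finset.mem_union_right _ hg
    · exact h1 hx
  · intro x hx
    refine Finset.mem_erase.2 ⟨?_, h2 hx⟩
    rintro rfl
    exact (Finset.mem_sdiff.1 hx).2 hg

theorem main : S_pair0 := by
  intro q hq0 hq1 S β g h b hβ hg hh hgh
  refine Pr_mono (fun e => ⟨hq0, hq1⟩) ?_
  intro F _ hT
  unfold T3 at hT
  have hor : Pf (W810.KP.Con β) g (insert h F) ∨ Pf (W810.KP.Con β) g (F.erase h) := by tauto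
  rcases hor with hP | hP
  · refine pf_bf β g b F _ hg ?_ ?_ hP
    · intro x hx
      rcases Finset.mem_insert.1 hx with rfl | hx
      · exact Finset.mem_union_right _ hh
      · exact Finset.mem_union_left _ hx
    · intro x hx
      exact Finset.mem_insert_of_mem (Finset.mem_sdiff.1 hx).1
  · refine pf_bf β g b F _ hg ?_ ?_ hP
    · intro x hx
      exact Finset.mem_union_left _ (Finset.mem_erase.1 hx).2
    · intro x hx
      rw [Finset.mem_sdiff] at hx
      refine Finset.mem_erase.2 ⟨?_, hx.1⟩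
      rintro rfl
      exact hx.2 hh

end Pool.Agent.W34.KPPair0
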